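import Mathlib
import Pool.Agent.W795.DD.Stm2
import Pool.Agent.W785.DF.Alg

/-!
# DD-WAVE-B: the pair of waves which produces a change of a low mode
-/

set_option autoImplicit false

open MeasureTheory Set
open scoped ContDiff InnerProductSpace ENNReal

namespace Pool.Agent.W85.DD

open H459R3.NS (V K3 Per pd fr ee cube)
open Pool.Agent.W785.DF (E3 dk kv cj Pk Nl Fld Fr TP tp frv Herm IsAdmissible dk_add dk_smul dk_sub
  dk_neg dk_neg_left dk_sub_left dk_kv cj_zero cj_cj cj_add cj_sub cj_neg cj_smul cj_kv norm_cj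
  dk_cj Pk_cj norm_kv one_le_sq sq_neg' norm_Pk_le dk_zero)
open Pool.Agent.W795.DD

/-! ### algebra -/

theorem Pk_add (k : K3) (v w : E3) : Pk k (v + w) = Pk k v + Pk k w := by
  simp only [Pk, dk_add, add_div, add_smul]; abel

theorem Pk_smul (k : K3) (z : ℂ) (v : E3) : Pk k (z • v) = z • Pk k v := by
  simp only [Pk, dk_smul, smul_sub, smul_smul, mul_div_assoc]

theorem Pk_zero' (k : K3) : Pk k 0 = 0 := by simp [Pk, dk_zero]

theorem kv_add (k l : K3) : kv (k + l) = kv k + kv l := by ext i; simp [kv]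

theorem ab_neg (k : K3) : ab (-k) = ab k := by simp only [ab, sq_neg']

theorem ab_nonneg (k : K3) : 0 ≤ ab k := Real.sqrt_nonneg _

theorem one_le_ab {k : K3} (hk : k ≠ 0) : 1 ≤ ab k := by
  rw [ab, ← Real.sqrt_one]; exact Real.sqrt_le_sqrt (one_le_sq hk)

theorem ab_eq_norm (k : K3) : ab k = ‖kv k‖ := by
  rw [ab, ← norm_kv, Real.sqrt_sq (norm_nonneg _)]

theorem Fld_add {S : Finset K3} {a b : K3 → E3} (ha : Fld S a) (hb : Fld S b) : Fld S (a + b) :=
  ⟨fun k hk => by rw [Pi.add_apply, ha.supp k hk, hb.supp k hk, add_zero],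
    fun k => by rw [Pi.add_apply, Pi.add_apply, ha.sym, hb.sym, cj_add],
    fun k => by rw [Pi.add_apply, dk_add, ha.div, hb.div, add_zero]⟩

theorem Fld_smul {S : Finset K3} {a : K3 → E3} (ha : Fld S a) (x : ℝ) : Fld S ((x : ℂ) • a) :=
  ⟨fun k hk => by rw [Pi.smul_apply, ha.supp k hk, smul_zero],
    fun k => by
      rw [Pi.smul_apply, Pi.smul_apply, ha.sym, cj_smul]
      congr 1
      exact (Complex.conj_ofReal x).symm,
    fun k => by rw [Pi.smul_apply, dk_smul, ha.div, mul_zero]⟩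

theorem Bl_smul (S : Finset K3) (a b : K3 → E3) (x y : ℂ) (k : K3) :
    Bl S (x • a) (y • b) k = (x * y) • Bl S a b k := by
  unfold Bl
  rw [Finset.smul_sum]
  refine Finset.sum_congr rfl fun l _ => ?_
  rw [Pi.smul_apply, Pi.smul_apply, dk_smul, smul_smul, smul_smul]
  congr 1; ring

theorem An_nonneg (S : Finset K3) (a : K3 → E3) : 0 ≤ An S a :=
  Finset.sum_nonneg fun k _ => div_nonneg (norm_nonneg _) (ab_nonneg k)

theorem An_add (S : Finset K3) (a b : K3 → E3) : An S (a + b) ≤ An S a + An S b := by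
  unfold An
  rw [← Finset.sum_add_distrib]
  refine Finset.sum_le_sum fun k _ => ?_
  rw [← add_div]
  exact div_le_div_of_nonneg_right (norm_add_le _ _) (ab_nonneg k)

theorem An_smul (S : Finset K3) (a : K3 → E3) (x : ℂ) : An S (x • a) = ‖x‖ * An S a := by
  unfold An
  rw [Finset.mul_sum]
  refine Finset.sum_congr rfl fun k _ => ?_
  rw [Pi.smul_apply, norm_smul, mul_div_assoc]

theorem A_add (m : ℕ) (S : Finset K3) (a b : K3 → E3) : A m S (a + b) ≤ A m S a + A m S b := by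
  unfold A
  rw [← Finset.sum_add_distrib]
  refine Finset.sum_le_sum fun k _ => ?_
  rw [← mul_add]
  exact mul_le_mul_of_nonneg_left (norm_add_le _ _) (pow_nonneg (ab_nonneg k) m)

theorem A_smul (m : ℕ) (S : Finset K3) (a : K3 → E3) (x : ℂ) :
    A m S (x • a) = ‖x‖ * A m S a := by
  unfold A
  rw [Finset.mul_sum]
  refine Finset.sum_congr rfl fun k _ => ?_
  rw [Pi.smul_apply, norm_smul]; ring

theorem An_mono {S : Finset K3} {a b : K3 → E3} (h : ∀ k ∈ S, ‖a k‖ ≤ ‖b k‖) :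
    An S a ≤ An S b :=
  Finset.sum_le_sum fun k hk => div_le_div_of_nonneg_right (h k hk) (ab_nonneg k)

theorem norm_PW (κ : K3) (a : E3) (k : K3) : ‖PW κ a k‖ ≤ ‖a‖ := by
  unfold PW
  split_ifs
  · exact le_rfl
  · rw [norm_cj]
  · rw [norm_zero]; exact norm_nonneg _

theorem norm_PW_ab {κ : K3} {a : E3} {c : ℝ} (h : ‖a‖ ≤ c * ab κ) (hc : 0 ≤ c) (k : K3) :
    ‖PW κ a k‖ ≤ c * ab k := by
  unfold PW
  split_ifs with h1 h2
  · rw [h1]; exact h
  · rw [norm_cj, h2, ab_neg]; exact h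
  · rw [norm_zero]; exact mul_nonneg hc (ab_nonneg k)

theorem An_PW_le {S : Finset K3} (hS : Fr S) (κ : K3) (a : E3) : An S (PW κ a) ≤ 2 * ‖a‖ := by
  classical
  have h1 : An S (PW κ a) ≤ ∑ k ∈ S, ((if k = κ then ‖a‖ else 0) + if k = -κ then ‖a‖ else 0) := by
    refine Finset.sum_le_sum fun k hk => ?_
    refine (div_le_self (norm_nonneg _) (one_le_ab (hS.ne hk))).trans ?_
    unfold PW
    have := norm_nonneg a
    split_ifs <;> first | linarith | (rw [norm_cj]; linarith) | simp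
  refine h1.trans ?_
  rw [Finset.sum_add_distrib, Finset.sum_ite_eq', Finset.sum_ite_eq']
  have := norm_nonneg a
  split_ifs <;> linarith

theorem PW_smul (κ : K3) (a : E3) (x : ℝ) : PW κ ((x : ℂ) • a) = (x : ℂ) • PW κ a := by
  funext k
  rw [Pi.smul_apply]
  unfold PW
  split_ifs
  · rfl
  · rw [cj_smul]; congr 1; exact Complex.conj_ofReal x
  · rw [smul_zero]

theorem PW_sub {κ : K3} (a b : E3) (k : K3) : PW κ (a - b) k = PW κ a k - PW κ b k := by
  unfold PW
  split_ifs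
  · rfl
  · rw [cj_sub]
  · rw [sub_zero]

theorem Pk_neg_left (k : K3) (v : E3) : Pk (-k) v = Pk k v := by
  have := Pk_cj k (cj v)
  rw [cj_cj] at this
  rw [this]
  simp only [Pk, cj_sub, cj_smul, cj_cj, cj_kv, dk_cj]
  congr 2
  simp

theorem Pk_PW (κ : K3) (a : E3) (k : K3) : Pk k (PW κ a k) = PW κ (Pk κ a) k := by
  unfold PW
  split_ifs with h1 h2
  · rw [h1]
  · rw [h2, Pk_cj]
  · exact Pk_zero' k

theorem lam_PW (ν : ℝ) (κ : K3) (a : E3) (k : K3) :
    lam ν k • PW κ a k = ((4 * Real.pi ^ 2 * ν * W785.DF.sq κ : ℝ) : ℂ) • PW κ a k := by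
  unfold PW lam
  split_ifs with h1 h2
  · rw [h1]
  · rw [h2, sq_neg']
  · rw [smul_zero, smul_zero]

/-- `PW` as a sum. -/
theorem PW_eq {κ : K3} (hκ : κ ≠ 0) (a : E3) (k : K3) :
    PW κ a k = (if k = κ then a else 0) + (if k = -κ then cj a else 0) := by
  have : κ ≠ -κ := by
    intro h
    apply hκ
    funext i
    have := congrFun h i
    simp only [Pi.neg_apply, Pi.zero_apply] at *
    omega
  unfold PW
  by_cases h1 : k = κ
  · rw [if_pos h1, if_pos h1, if_neg (h1 ▸ this), add_zero]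
  · rw [if_neg h1, if_neg h1, zero_add]

theorem Bl_add_left (S : Finset K3) (a a' b : K3 → E3) (k : K3) :
    Bl S (a + a') b k = Bl S a b k + Bl S a' b k := by
  unfold Bl
  rw [← Finset.sum_add_distrib]
  refine Finset.sum_congr rfl fun l _ => ?_
  rw [Pi.add_apply, dk_add, mul_add, add_smul]

theorem Bl_add_right (S : Finset K3) (a b b' : K3 → E3) (k : K3) :
    Bl S a (b + b') k = Bl S a b k + Bl S a b' k := by
  unfold Bl
  rw [← Finset.sum_add_distrib]
  refine Finset.sum_congr rfl fun l _ => ?_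
  rw [Pi.add_apply, smul_add]

/-- The interaction of two waves. -/
theorem inter (hpw : S_pw) {S : Finset K3} (hS : Fr S) {η η' : K3} (hη : η ∈ S) (hη' : η' ∈ S)
    (h1 : η ≠ η') (h2 : η ≠ -η') {E E' : E3} (hE : cj E = E) (hE' : cj E' = E') (m β : ℝ)
    (γ s : ℂ) (hm : dk η' E = (m : ℂ)) (hm' : dk η E' = -(m : ℂ))
    (hs : s = 2 * Real.pi * Complex.I * m * β * γ) (k : K3) :
    Bl S (PW η ((β : ℂ) • E)) (PW η' (γ • E')) k + Bl S (PW η' (γ • E')) (PW η ((β : ℂ) • E)) k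
      = PW (η' - η) (s • (E + E')) k + PW (η + η') (s • (E' - E)) k := by
  have hB := hpw.2.2.2.1 S hS
  have h3 : η' ≠ -η := fun h => h2 (by rw [h, neg_neg])
  rw [hB η η' _ _ hη hη' h1 h2 k, hB η' η _ _ hη' hη (Ne.symm h1) h3 k]
  have hd : η' - η ≠ 0 := sub_ne_zero.mpr (Ne.symm h1)
  have ha : η + η' ≠ 0 := fun h => h2 (eq_neg_of_add_eq_zero_left h)
  rw [PW_eq hd, PW_eq ha]
  have e1 : -(η' - η) = η - η' := by abel
  have e2 : -(η + η') = -η - η' := by abel
  have e3 : η' + η = η + η' := by abel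
  have e4 : -η' - η = -η - η' := by abel
  rw [e1, e2, e3, e4]
  have hβ : cj ((β : ℂ) • E) = (β : ℂ) • E := by
    rw [cj_smul, hE]; congr 1; exact Complex.conj_ofReal β
  have hγ : cj (γ • E') = (star γ) • E' := by rw [cj_smul, hE']
  have hss : star s = -(2 * Real.pi * Complex.I * m * β * star γ) := by
    rw [hs]
    simp only [star_mul', Complex.star_def, Complex.conj_ofReal, Complex.conj_I, Complex.conj_ofNat]
    ring
  rw [hβ, hγ]
  simp only [dk_neg_left, dk_smul, hm, hm', cj_smul, cj_add, cj_sub, hE, hE']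
  have t1 : (2 * (Real.pi : ℂ) * Complex.I * ((β : ℂ) * (m : ℂ))) • γ • E' = s • E' := by
    rw [smul_smul, hs]; congr 1; ring
  have t2 : (2 * (Real.pi : ℂ) * Complex.I * ((β : ℂ) * -(m : ℂ))) • star γ • E'
      = star s • E' := by
    rw [smul_smul, hss]; congr 1; ring
  have t3 : (2 * (Real.pi : ℂ) * Complex.I * (γ * -(m : ℂ))) • (β : ℂ) • E = -(s • E) := by
    rw [smul_smul, hs, ← neg_smul]; congr 1; ring
  have t4 : (2 * (Real.pi : ℂ) * Complex.I * (star γ * -(m : ℂ))) • (β : ℂ) • E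
      = star s • E := by
    rw [smul_smul, hss]; congr 1; ring
  have t5 : (2 * (Real.pi : ℂ) * Complex.I * (γ * - -(m : ℂ))) • (β : ℂ) • E = s • E := by
    rw [smul_smul, hs]; congr 1; ring
  have t6 : (2 * (Real.pi : ℂ) * Complex.I * (star γ * - -(m : ℂ))) • (β : ℂ) • E
      = -(star s • E) := by
    rw [smul_smul, hss, ← neg_smul]; congr 1; ring
  rw [t1, t2, t3, t4, t5, t6]
  have i1 : ∀ (P : Prop) [Decidable P] (u v : E3),
      (if P then u + v else 0) = (if P then u else 0) + (if P then v else 0) := by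
    intro P _ u v; split_ifs <;> simp
  have i2 : ∀ (P : Prop) [Decidable P] (u v : E3),
      (if P then u - v else 0) = (if P then u else 0) + (if P then -v else 0) := by
    intro P _ u v; split_ifs <;> simp [sub_eq_add_neg]
  simp only [smul_add, smul_sub, i1, i2]
  abel

/-! ### the direction `q` -/

theorem exists_q (μ p : K3) (hμ : μ ≠ 0) (hp : p ≠ 0) (h : ∑ j, μ j * p j = 0) :
    ∃ q : K3, q ≠ 0 ∧ dk q (kv p) = 0 ∧ dk q (kv μ) = 0 ∧ dk μ (kv q) = 0 := by
  refine ⟨![μ 1 * p 2 - μ 2 * p 1, μ 2 * p 0 - μ 0 * p 2, μ 0 * p 1 - μ 1 * p 0], ?_, ?_, ?_, ?_⟩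
  · intro h0
    have a0 := congrFun h0 0
    have a1 := congrFun h0 1
    have a2 := congrFun h0 2
    simp at a0 a1 a2
    rw [Fin.sum_univ_three] at h
    have key : (μ 0 ^ 2 + μ 1 ^ 2 + μ 2 ^ 2) * (p 0 ^ 2 + p 1 ^ 2 + p 2 ^ 2) = 0 := by
      have : (μ 0 ^ 2 + μ 1 ^ 2 + μ 2 ^ 2) * (p 0 ^ 2 + p 1 ^ 2 + p 2 ^ 2)
        = (μ 0 * p 0 + μ 1 * p 1 + μ 2 * p 2) ^ 2 + (μ 1 * p 2 - μ 2 * p 1) ^ 2
          + (μ 2 * p 0 - μ 0 * p 2) ^ 2 + (μ 0 * p 1 - μ 1 * p 0) ^ 2 := by ring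
      rw [this, h, a0, a1, a2]; norm_num
    rcases mul_eq_zero.mp key with h1 | h1
    · apply hμ
      have b0 : μ 0 = 0 := by nlinarith [sq_nonneg (μ 0), sq_nonneg (μ 1), sq_nonneg (μ 2)]
      have b1 : μ 1 = 0 := by nlinarith [sq_nonneg (μ 0), sq_nonneg (μ 1), sq_nonneg (μ 2)]
      have b2 : μ 2 = 0 := by nlinarith [sq_nonneg (μ 0), sq_nonneg (μ 1), sq_nonneg (μ 2)]
      funext i; fin_cases i
      · exact b0
      · exact b1
      · exact b2
    · apply hp
      have b0 : p 0 = 0 := by nlinarith [sq_nonneg (p 0), sq_nonneg (p 1), sq_nonneg (p 2)]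
      have b1 : p 1 = 0 := by nlinarith [sq_nonneg (p 0), sq_nonneg (p 1), sq_nonneg (p 2)]
      have b2 : p 2 = 0 := by nlinarith [sq_nonneg (p 0), sq_nonneg (p 1), sq_nonneg (p 2)]
      funext i; fin_cases i
      · exact b0
      · exact b1
      · exact b2
  · simp [dk, kv, Fin.sum_univ_three]; ring
  · simp [dk, kv, Fin.sum_univ_three]; ring
  · simp [dk, kv, Fin.sum_univ_three]; ring

theorem dk_kv_of (μ p : K3) (h : ∑ j, μ j * p j = 0) : dk μ (kv p) = 0 := by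
  have : ((∑ j, μ j * p j : ℤ) : ℂ) = 0 := by rw [h]; simp
  rw [← this]
  simp [dk, kv]

theorem sq_add_ortho {a b : K3} (h : dk a (kv b) = 0) :
    W785.DF.sq (a + b) = W785.DF.sq a + W785.DF.sq b := by
  have h1 : ((∑ j, (a j : ℝ) * (b j : ℝ) : ℝ) : ℂ) = 0 := by
    rw [← h]; simp [dk, kv]
  have h2 : (∑ j, (a j : ℝ) * (b j : ℝ) : ℝ) = 0 := by exact_mod_cast h1
  rw [Fin.sum_univ_three] at h2
  simp only [W785.DF.sq, Fin.sum_univ_three, Pi.add_apply, Int.cast_add]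
  linear_combination 2 * h2

theorem sq_nsmul (N : ℕ) (q : K3) : W785.DF.sq (N • q) = (N : ℝ) ^ 2 * W785.DF.sq q := by
  simp only [W785.DF.sq, Fin.sum_univ_three, Pi.smul_apply, nsmul_eq_mul, Int.cast_mul,
    Int.cast_natCast]
  ring

theorem dk_nsmul (N : ℕ) (q : K3) (v : E3) : dk (N • q) v = N * dk q v := by
  simp only [dk, Fin.sum_univ_three, Pi.smul_apply, nsmul_eq_mul, Int.cast_mul,
    Int.cast_natCast]
  ring

theorem dk_add_left (k l : K3) (v : E3) : dk (k + l) v = dk k v + dk l v := by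
  simp only [dk, Fin.sum_univ_three, Pi.add_apply, Int.cast_add]
  ring

/-! ### exponentials -/

/-- `exp(-x t)` as a complex number -/
noncomputable def ex (x t : ℝ) : ℂ := ((Real.exp (-(x * t)) : ℝ) : ℂ)

theorem ex_mul (x y t : ℝ) : ex x t * ex y t = ex (x + y) t := by
  unfold ex
  rw [← Complex.ofReal_mul, ← Real.exp_add]
  congr 3; ring

theorem ex_zero (x : ℝ) : ex x 0 = 1 := by simp [ex]

theorem norm_ex (x t : ℝ) : ‖ex x t‖ = Real.exp (-(x * t)) := by
  rw [ex, Complex.norm_real, Real.norm_of_nonneg (Real.exp_pos _).le]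

theorem norm_ex_le {x y t : ℝ} (h : y ≤ x) (ht : 0 ≤ t) : ‖ex x t‖ ≤ Real.exp (-(y * t)) := by
  rw [norm_ex]
  exact Real.exp_le_exp.mpr (neg_le_neg (mul_le_mul_of_nonneg_right h ht))

theorem hd_ex (x : ℝ) (v : E3) (t : ℝ) :
    HasDerivAt (fun s => ex x s • v) (-((x : ℂ) • (ex x t • v))) t := by
  have h1 : HasDerivAt (fun s : ℝ => Real.exp (-(x * s))) (Real.exp (-(x * t)) * (-x)) t := by
    have h0 := ((hasDerivAt_id t).const_mul x).neg
    rw [mul_one] at h0
    exact HasDerivAt.exp (f := fun s : ℝ => -(x * s)) h0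
  have h2 := (h1.ofReal_comp).smul_const v
  refine HasDerivAt.congr_deriv h2 ?_
  unfold ex
  rw [smul_smul, ← neg_smul]
  congr 1
  push_cast
  ring

theorem cd_ex (x : ℝ) (v : E3) : ContDiff ℝ ∞ (fun s => ex x s • v) := by
  have h1 : ContDiff ℝ ∞ (fun s : ℝ => Real.exp (-(x * s))) :=
    (contDiff_const.mul contDiff_id).neg.exp
  have h2 : ContDiff ℝ ∞ (fun s : ℝ => ex x s) := Complex.ofRealCLM.contDiff.comp h1
  exact h2.smul contDiff_const

end Pool.Agent.W85.DD
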