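import Mathlib
import Pool.Agent.W85.DD.WaveB

/-!
# DD-WAVE-B: the data of the pair of waves
-/

set_option autoImplicit false
set_option maxHeartbeats 4000000

open MeasureTheory Set
open scoped ContDiff InnerProductSpace ENNReal

namespace Pool.Agent.W85.DD

open H459R3.NS (V K3 Per pd fr ee cube)
open Pool.Agent.W785.DF (E3 dk kv cj Pk Nl Fld Fr TP tp frv Herm IsAdmissible dk_add dk_smul dk_sub
  dk_neg dk_neg_left dk_sub_left dk_kv cj_zero cj_cj cj_add cj_sub cj_neg cj_smul cj_kv norm_cj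
  dk_cj Pk_cj norm_kv one_le_sq sq_neg' norm_Pk_le dk_zero sq_zero')
open Pool.Agent.W795.DD

/-- The data of the pair of waves. -/
structure WD (ν : ℝ) (μ p : K3) (z : ℂ) (N : ℕ) (R E0 B1 D : ℝ) where
  η : K3
  η' : K3
  a : E3
  b : E3
  g : E3
  v : E3
  h : E3
  L : ℝ
  l : ℝ
  l' : ℝ
  η0 : η ≠ 0
  η0' : η' ≠ 0
  ne : η ≠ η'
  ne' : η ≠ -η'
  hημ : η' - η = μ
  da : dk η a = 0
  db : dk η' b = 0
  dg : dk μ g = 0
  hl : l = 4 * Real.pi ^ 2 * ν * W785.DF.sq η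
  hl' : l' = 4 * Real.pi ^ 2 * ν * W785.DF.sq η'
  hL : L = l + l'
  Nle : (N : ℝ) ≤ ab η
  Nle' : (N : ℝ) ≤ ab η'
  leR : ab η ≤ N * R
  leR' : ab η' ≤ N * R
  na : ‖a‖ ≤ Real.sqrt ‖z‖ * B1 * E0 * N
  nb : ‖b‖ ≤ Real.sqrt ‖z‖ * B1 * E0 * N
  ng : ‖g‖ ≤ ‖z‖ * E0
  ngp : ‖g - z • kv p‖ ≤ ‖z‖ * E0 / (2 * N)
  nh : ‖h‖ ≤ ‖z‖ * D * E0 * N / 2
  vP : Pk μ v = (L : ℂ) • g
  int : ∀ S : Finset K3, Fr S → η ∈ S → η' ∈ S → ∀ k,
    Bl S (PW η a) (PW η' b) k + Bl S (PW η' b) (PW η a) k = PW μ v k + PW (η + η') h k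

theorem wave_data (hpw : S_pw) {ν : ℝ} (hν : 0 < ν) {μ p q : K3} (hμ : μ ≠ 0) (hq : q ≠ 0)
    (hqp : dk q (kv p) = 0) (hqμ : dk q (kv μ) = 0) (hμq : dk μ (kv q) = 0)
    (hμp : dk μ (kv p) = 0) (z : ℂ) {N : ℕ} (hN : 1 ≤ N) {Q M : ℝ}
    (hQ : Q = W785.DF.sq q) (hM : M = W785.DF.sq μ) :
    Nonempty (WD ν μ p z N (Real.sqrt (Q + M)) (‖kv p‖ + ‖kv μ‖ + M * ‖kv q‖)
      (Real.sqrt (Real.pi * ν * (2 * Q + M))) (4 * Real.pi ^ 2 * ν * (2 * Q + M))) := by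
  have hQ1 : 1 ≤ Q := hQ ▸ one_le_sq hq
  have hM1 : 1 ≤ M := hM ▸ one_le_sq hμ
  have hpi := Real.pi_pos
  have hN1 : (1 : ℝ) ≤ N := by exact_mod_cast hN
  have hN0 : (0 : ℝ) < N := by linarith
  have hM0 : (0 : ℝ) < M := by linarith
  have hQ0 : (0 : ℝ) < Q := by linarith
  obtain ⟨c, hc⟩ : ∃ c : ℝ, c = M / (N * Q) := ⟨_, rfl⟩
  have hc0 : 0 ≤ c := by rw [hc]; positivity
  have hcN : c ≤ M / N := by
    rw [hc]
    exact div_le_div_of_nonneg_left hM0.le hN0 (by nlinarith)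
  have hcM : c ≤ M := hcN.trans (div_le_self hM0.le hN1)
  have hcNQ : c * (N * Q) = M := by rw [hc]; field_simp
  obtain ⟨L, hL⟩ : ∃ L : ℝ, L = 4 * Real.pi ^ 2 * ν * (2 * (N : ℝ) ^ 2 * Q + M) := ⟨_, rfl⟩
  have hL0 : 0 ≤ L := by rw [hL]; positivity
  have hsη : W785.DF.sq (N • q) = (N : ℝ) ^ 2 * Q := by rw [sq_nsmul, hQ]
  have hsη' : W785.DF.sq (N • q + μ) = (N : ℝ) ^ 2 * Q + M := by
    rw [sq_add_ortho, hsη, hM]
    rw [dk_nsmul, hqμ, mul_zero]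
  have hLD : L ≤ 4 * Real.pi ^ 2 * ν * (2 * Q + M) * N ^ 2 := by
    rw [hL, mul_assoc _ (2 * Q + M)]
    have hN2 : (1 : ℝ) ≤ (N : ℝ) ^ 2 := one_le_pow₀ hN1
    have : (2 * (N : ℝ) ^ 2 * Q + M) ≤ (2 * Q + M) * N ^ 2 := by
      nlinarith [mul_nonneg hM0.le (sub_nonneg.2 hN2)]
    gcongr
  obtain ⟨β, hβ⟩ : ∃ β : ℝ, β = Real.sqrt (‖z‖ * L / (4 * Real.pi * M)) := ⟨_, rfl⟩
  have hβ0 : 0 ≤ β := hβ ▸ Real.sqrt_nonneg _
  have hβ2 : β ^ 2 = ‖z‖ * L / (4 * Real.pi * M) := by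
    rw [hβ, Real.sq_sqrt (by positivity)]
  have hβle : β ≤ Real.sqrt ‖z‖ * Real.sqrt (Real.pi * ν * (2 * Q + M)) * N := by
    rw [hβ, Real.sqrt_le_left (by positivity), mul_pow, mul_pow, Real.sq_sqrt (norm_nonneg _),
      Real.sq_sqrt (by positivity), div_le_iff₀ (by positivity)]
    have h1 : ‖z‖ * L ≤ ‖z‖ * (4 * Real.pi ^ 2 * ν * (2 * Q + M) * N ^ 2) := by gcongr
    refine h1.trans ?_
    have h2 : 0 ≤ ‖z‖ * (4 * Real.pi ^ 2 * ν * (2 * Q + M) * N ^ 2) := by positivity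
    nlinarith
  obtain ⟨γ, hγ⟩ : ∃ γ : ℂ, γ = -Complex.I * β * (z / ‖z‖) := ⟨_, rfl⟩
  have hγn : ‖γ‖ ≤ β := by
    rw [hγ, norm_mul, norm_mul, norm_neg, Complex.norm_I, one_mul, Complex.norm_real,
      Real.norm_of_nonneg hβ0, norm_div, Complex.norm_real, norm_norm]
    exact mul_le_of_le_one_right hβ0 (div_self_le_one _)
  have hzz : (‖z‖ : ℂ) * (z / ‖z‖) = z := by
    by_cases h : z = 0
    · simp [h]
    · have : (‖z‖ : ℂ) ≠ 0 := by exact_mod_cast norm_ne_zero_iff.mpr h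
      field_simp
  obtain ⟨s, hs⟩ : ∃ s : ℂ, s = 2 * Real.pi * Complex.I * M * β * γ := ⟨_, rfl⟩
  have hs2 : s = z * L / 2 := by
    have hβ2' : (β : ℂ) ^ 2 = ‖z‖ * L / (4 * Real.pi * M) := by exact_mod_cast hβ2
    have hMc : (M : ℂ) ≠ 0 := by exact_mod_cast hM0.ne'
    have hpc : (Real.pi : ℂ) ≠ 0 := by exact_mod_cast hpi.ne'
    calc s = 2 * Real.pi * M * (β : ℂ) ^ 2 * (z / ‖z‖) * (-(Complex.I * Complex.I)) := by
          rw [hs, hγ]; ring
      _ = (‖z‖ : ℂ) * (z / ‖z‖) * (L / 2) := by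
          rw [hβ2', Complex.I_mul_I]; field_simp; ring
      _ = z * L / 2 := by rw [hzz]; ring
  have hE1 : dk q (kv p + kv μ) = 0 := by rw [dk_add, hqp, hqμ, add_zero]
  have hE2 : dk μ (kv p + kv μ) = (M : ℂ) := by rw [dk_add, hμp, dk_kv, zero_add, hM]
  have hcc : (c : ℂ) * ((N : ℂ) * (Q : ℂ)) = (M : ℂ) := by exact_mod_cast hcNQ
  have hE3 : (N : ℂ) * dk q (kv p + kv μ - (c : ℂ) • kv q) = -(M : ℂ) := by
    rw [dk_sub, hE1, dk_smul, dk_kv, ← hQ]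
    linear_combination -hcc
  have hE4 : dk μ (kv p + kv μ - (c : ℂ) • kv q) = (M : ℂ) := by
    rw [dk_sub, hE2, dk_smul, hμq, mul_zero, sub_zero]
  have hnE : ‖kv p + kv μ‖ ≤ ‖kv p‖ + ‖kv μ‖ + M * ‖kv q‖ :=
    (norm_add_le _ _).trans (by nlinarith [norm_nonneg (kv q)])
  have hncq : ‖(c : ℂ) • kv q‖ ≤ M * ‖kv q‖ := by
    rw [norm_smul, Complex.norm_real, Real.norm_of_nonneg hc0]
    exact mul_le_mul_of_nonneg_right hcM (norm_nonneg _)
  have hnE' : ‖kv p + kv μ - (c : ℂ) • kv q‖ ≤ ‖kv p‖ + ‖kv μ‖ + M * ‖kv q‖ :=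
    (norm_sub_le _ _).trans (add_le_add (norm_add_le _ _) hncq)
  have hηab : ab (N • q) = N * Real.sqrt Q := by
    rw [ab, hsη, Real.sqrt_mul (by positivity), Real.sqrt_sq hN0.le]
  have hne' : N • q ≠ -(N • q + μ) := by
    intro h0
    have h1 : N • q + (N • q + μ) = 0 := by
      rw [← neg_add_cancel (N • q + μ), ← h0]
    have h2 : dk (N • q + (N • q + μ)) (kv μ) = (M : ℂ) := by
      rw [dk_add_left, dk_add_left, dk_nsmul, hqμ, dk_kv, hM]; ring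
    rw [h1, Pool.Agent.W785.DF.dk_zero_left] at h2
    exact hM0.ne (by exact_mod_cast h2)
  have hPp : Pk μ (kv p) = kv p := by rw [Pk, hμp]; simp
  have hPq : Pk μ (kv q) = kv q := by rw [Pk, hμq]; simp
  have hPμ : Pk μ (kv μ) = 0 := by
    rw [Pk, dk_kv, div_self, one_smul, sub_self]
    rw [← hM]; exact_mod_cast hM0.ne'
  refine ⟨{ η := N • q
            η' := N • q + μ
            a := (β : ℂ) • (kv p + kv μ)
            b := γ • (kv p + kv μ - (c : ℂ) • kv q)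
            g := z • kv p - (z * c / 2) • kv q
            v := s • ((kv p + kv μ) + (kv p + kv μ - (c : ℂ) • kv q))
            h := s • ((kv p + kv μ - (c : ℂ) • kv q) - (kv p + kv μ))
            L := L
            l := 4 * Real.pi ^ 2 * ν * W785.DF.sq (N • q)
            l' := 4 * Real.pi ^ 2 * ν * W785.DF.sq (N • q + μ)
            η0 := ?_
            η0' := ?_
            ne := ?_
            ne' := hne'
            hημ := ?_
            da := ?_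
            db := ?_
            dg := ?_
            hl := rfl
            hl' := rfl
            hL := ?_
            Nle := ?_
            Nle' := ?_
            leR := ?_
            leR' := ?_
            na := ?_
            nb := ?_
            ng := ?_
            ngp := ?_
            nh := ?_
            vP := ?_
            int := ?_ }⟩
  · intro h0
    rw [h0, sq_zero'] at hsη
    have : 0 < (N : ℝ) ^ 2 * Q := by positivity
    linarith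
  · intro h0
    rw [h0, sq_zero'] at hsη'
    have : 0 < (N : ℝ) ^ 2 * Q + M := by positivity
    linarith
  · intro h0; exact hμ (by simpa using h0)
  · abel
  · rw [dk_smul, dk_nsmul, hE1, mul_zero, mul_zero]
  · rw [dk_smul, dk_add_left, dk_nsmul, hE3, hE4, neg_add_cancel, mul_zero]
  · rw [dk_sub, dk_smul, dk_smul, hμp, hμq, mul_zero, mul_zero, sub_zero]
  · rw [hsη, hsη', hL]; ring
  · rw [hηab]
    have : 1 ≤ Real.sqrt Q := by rw [← Real.sqrt_one]; exact Real.sqrt_le_sqrt hQ1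
    nlinarith
  · rw [ab, hsη']
    apply Real.le_sqrt_of_sq_le
    nlinarith [sq_nonneg (N : ℝ)]
  · rw [hηab]
    have : Real.sqrt Q ≤ Real.sqrt (Q + M) := Real.sqrt_le_sqrt (by linarith)
    gcongr
  · rw [ab, hsη', Real.sqrt_le_left (by positivity), mul_pow, Real.sq_sqrt (by positivity)]
    have hN2 : (1 : ℝ) ≤ (N : ℝ) ^ 2 := one_le_pow₀ hN1
    have h3 : 0 ≤ M * ((N : ℝ) ^ 2 - 1) := mul_nonneg hM0.le (sub_nonneg.2 hN2)
    linarith
  · rw [norm_smul, Complex.norm_real, Real.norm_of_nonneg hβ0]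
    calc β * ‖kv p + kv μ‖ ≤ (Real.sqrt ‖z‖ * Real.sqrt (Real.pi * ν * (2 * Q + M)) * N)
          * (‖kv p‖ + ‖kv μ‖ + M * ‖kv q‖) := by gcongr
      _ = _ := by ring
  · rw [norm_smul]
    calc ‖γ‖ * ‖kv p + kv μ - (c : ℂ) • kv q‖
        ≤ (Real.sqrt ‖z‖ * Real.sqrt (Real.pi * ν * (2 * Q + M)) * N)
          * (‖kv p‖ + ‖kv μ‖ + M * ‖kv q‖) := by
            gcongr
            exact hγn.trans hβle
      _ = _ := by ring
  · refine (norm_sub_le _ _).trans ?_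
    rw [norm_smul, norm_smul, norm_div, norm_mul, Complex.norm_real, Real.norm_of_nonneg hc0,
      Complex.norm_ofNat]
    have h1 : ‖z‖ * c / 2 * ‖kv q‖ ≤ ‖z‖ * (M * ‖kv q‖) := by
      have : ‖z‖ * c / 2 * ‖kv q‖ = ‖z‖ * (c / 2 * ‖kv q‖) := by ring
      rw [this]
      have h2 : c / 2 ≤ M := by linarith
      gcongr
    have h2 : 0 ≤ ‖z‖ * ‖kv μ‖ := by positivity
    nlinarith
  · have e1 : z • kv p - (z * c / 2) • kv q - z • kv p = -((z * c / 2) • kv q) := by abel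
    rw [e1, norm_neg, norm_smul, norm_div, norm_mul, Complex.norm_real, Real.norm_of_nonneg hc0,
      Complex.norm_ofNat]
    have h1 : ‖z‖ * c / 2 * ‖kv q‖ ≤ ‖z‖ * (M / N) / 2 * ‖kv q‖ := by gcongr
    refine h1.trans ?_
    have h2 : ‖z‖ * (M / N) / 2 * ‖kv q‖ = ‖z‖ * (M * ‖kv q‖) / (2 * N) := by
      field_simp
    rw [h2]
    have h3 : M * ‖kv q‖ ≤ ‖kv p‖ + ‖kv μ‖ + M * ‖kv q‖ := by
      have := norm_nonneg (kv p); have := norm_nonneg (kv μ); linarith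
    gcongr
  · have e1 : (kv p + kv μ - (c : ℂ) • kv q) - (kv p + kv μ) = -((c : ℂ) • kv q) := by abel
    rw [e1, hs2, norm_smul, norm_neg, norm_smul, norm_div, norm_mul, Complex.norm_real,
      Complex.norm_real, Real.norm_of_nonneg hc0, Real.norm_of_nonneg hL0, Complex.norm_ofNat]
    have h3 : M * ‖kv q‖ ≤ ‖kv p‖ + ‖kv μ‖ + M * ‖kv q‖ := by
      have := norm_nonneg (kv p); have := norm_nonneg (kv μ); linarith
    calc ‖z‖ * L / 2 * (c * ‖kv q‖)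
        ≤ ‖z‖ * (4 * Real.pi ^ 2 * ν * (2 * Q + M) * N ^ 2) / 2 * (M / N * ‖kv q‖) := by gcongr
      _ = ‖z‖ * (4 * Real.pi ^ 2 * ν * (2 * Q + M)) * (M * ‖kv q‖) * N / 2 := by field_simp
      _ ≤ _ := by gcongr
  · rw [Pk_smul, Pk_add, Pk_add, hPp, hPμ, sub_eq_add_neg, Pk_add, Pk_add, hPp, hPμ,
      ← neg_smul, Pk_smul, hPq, hs2]
    module
  · intro S hS h1 h2 k
    have := inter hpw hS h1 h2 (by intro h0; exact hμ (by simpa using h0)) hne'
      (E := kv p + kv μ) (E' := kv p + kv μ - (c : ℂ) • kv q)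
      (by rw [cj_add, cj_kv, cj_kv])
      (by
        rw [cj_sub, cj_add, cj_kv, cj_kv, cj_smul, cj_kv]
        congr 2; exact Complex.conj_ofReal c) M β γ s
      (by rw [dk_add_left, dk_nsmul, hE1, hE2, mul_zero, zero_add])
      (by rw [dk_nsmul, hE3]) hs k
    rw [this]
    have e1 : N • q + μ - N • q = μ := by abel
    rw [e1]

end Pool.Agent.W85.DD
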