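import Mathlib
import Pool.Agent.W85.DD.WaveB2

/-!
# DD-WAVE-B: the statement `S_wave`
-/

set_option autoImplicit false
set_option maxHeartbeats 4000000

open MeasureTheory Set
open scoped ContDiff InnerProductSpace ENNReal

namespace Pool.Agent.W85.DD

open H459R3.NS (V K3 Per pd fr ee cube)
open Pool.Agent.W785.DF (E3 dk kv cj Pk Nl Fld Fr TP tp frv Herm IsAdmissible dk_add dk_smul dk_sub
  dk_neg dk_neg_left dk_sub_left dk_kv cj_zero cj_cj cj_add cj_sub cj_neg cj_smul cj_kv norm_cj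
  dk_cj Pk_cj norm_kv one_le_sq sq_neg' norm_Pk_le dk_zero sq_zero')
open Pool.Agent.W795.DD

theorem Fld_ex {S : Finset K3} {a : K3 → E3} (ha : Fld S a) (x t : ℝ) : Fld S (ex x t • a) :=
  Fld_smul ha _

/-- the remainder -/
noncomputable def er (S : Finset K3) (ν : ℝ) (μ : K3) (L l l' : ℝ) (W1 W2 G H : K3 → E3)
    (t : ℝ) (k : K3) : E3 :=
  ex L t • (((4 * Real.pi ^ 2 * ν * W785.DF.sq μ : ℝ) : ℂ) • G k + Pk k (H k))
    + ex (l + L) t • Pk k (Bl S W1 G k + Bl S G W1 k)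
    + ex (l' + L) t • Pk k (Bl S W2 G k + Bl S G W2 k)

theorem eq_core (hpw : S_pw) {S : Finset K3} (hS : Fr S) (ν : ℝ) (μ η η' : K3) (L l l' : ℝ)
    (a b g v h : E3) (hμ : μ ∈ S) (hη : η ∈ S) (hη' : η' ∈ S)
    (da : dk η a = 0) (db : dk η' b = 0) (dg : dk μ g = 0)
    (hl : l = 4 * Real.pi ^ 2 * ν * W785.DF.sq η)
    (hl' : l' = 4 * Real.pi ^ 2 * ν * W785.DF.sq η') (hL : L = l + l')
    (vP : Pk μ v = (L : ℂ) • g)
    (int : ∀ k, Bl S (PW η a) (PW η' b) k + Bl S (PW η' b) (PW η a) k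
      = PW μ v k + PW (η + η') h k) (t : ℝ) (k : K3) :
    -((l : ℂ) • (ex l t • PW η a k)) + -((l' : ℂ) • (ex l' t • PW η' b k))
      + -((L : ℂ) • (ex L t • PW μ g k))
    = -(lam ν k • (ex l t • PW η a + ex l' t • PW η' b + ex L t • PW μ g) k)
      - Pk k (Nl S (ex l t • PW η a + ex l' t • PW η' b + ex L t • PW μ g) k)
      + er S ν μ L l l' (PW η a) (PW η' b) (PW μ g) (PW (η + η') h) t k := by
  have h3 := hpw.2.2.1 S hS
  have hNl : Nl S (ex l t • PW η a + ex l' t • PW η' b + ex L t • PW μ g) k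
      = ex L t • (PW μ v k + PW (η + η') h k)
        + ex (l + L) t • (Bl S (PW η a) (PW μ g) k + Bl S (PW μ g) (PW η a) k)
        + ex (l' + L) t • (Bl S (PW η' b) (PW μ g) k + Bl S (PW μ g) (PW η' b) k) := by
    rw [Nl_eq]
    simp only [Bl_add_left, Bl_add_right, Bl_smul]
    rw [h3 η a hη da k, h3 η' b hη' db k, h3 μ g hμ dg k, ← int k, hL, ← ex_mul l (l + l'),
      ← ex_mul l' (l + l'), ← ex_mul l l']
    module
  have hPv : Pk k (PW μ v k) = (L : ℂ) • PW μ g k := by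
    rw [Pk_PW, vP, PW_smul, Pi.smul_apply]
  have e1 := lam_PW ν η a k
  have e2 := lam_PW ν η' b k
  have e3 := lam_PW ν μ g k
  rw [← hl] at e1
  rw [← hl'] at e2
  rw [hNl]
  unfold er
  simp only [Pi.add_apply, Pi.smul_apply, Pk_add, Pk_smul, hPv]
  rw [smul_add, smul_add, smul_comm (lam ν k) (ex l t), smul_comm (lam ν k) (ex l' t),
    smul_comm (lam ν k) (ex L t), e1, e2, e3]
  module

theorem An_er (hpw : S_pw) {S : Finset K3} (hS : Fr S) {ν : ℝ} (hν : 0 < ν) (μ η : K3)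
    (L l l' : ℝ) (W1 W2 G : K3 → E3) (h : E3) (hW1 : Fld S W1) (hW2 : Fld S W2) (hG : Fld S G)
    {x t : ℝ} (h1 : x ≤ L) (h2 : x ≤ l) (h3 : x ≤ l') (hL0 : 0 ≤ L) (ht : 0 ≤ t) :
    An S (er S ν μ L l l' W1 W2 G (PW η h) t)
      ≤ (4 * Real.pi ^ 2 * ν * W785.DF.sq μ * An S G + 2 * ‖h‖
          + 4 * Real.pi * A 0 S W1 * A 0 S G + 4 * Real.pi * A 0 S W2 * A 0 S G)
        * Real.exp (-(x * t)) := by
  have hB := hpw.2.2.2.2.1 S hS
  have e1 : er S ν μ L l l' W1 W2 G (PW η h) t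
      = ex L t • ((((4 * Real.pi ^ 2 * ν * W785.DF.sq μ : ℝ) : ℂ) • G
          + fun k => Pk k (PW η h k)))
        + ex (l + L) t • (fun k => Pk k ((Bl S W1 G + Bl S G W1) k))
        + ex (l' + L) t • (fun k => Pk k ((Bl S W2 G + Bl S G W2) k)) := by
    funext k; rfl
  have hsq : 0 ≤ W785.DF.sq μ := Finset.sum_nonneg fun _ _ => sq_nonneg _
  have b1 : An S (((4 * Real.pi ^ 2 * ν * W785.DF.sq μ : ℝ) : ℂ) • G + fun k => Pk k (PW η h k))
      ≤ 4 * Real.pi ^ 2 * ν * W785.DF.sq μ * An S G + 2 * ‖h‖ := by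
    refine (An_add _ _ _).trans (add_le_add ?_ ?_)
    · rw [An_smul, Complex.norm_real, Real.norm_of_nonneg (by positivity)]
    · exact (An_mono fun k _ => norm_Pk_le k _).trans (An_PW_le hS η h)
  have b2 : ∀ W, Fld S W → An S (fun k => Pk k ((Bl S W G + Bl S G W) k))
      ≤ 4 * Real.pi * A 0 S W * A 0 S G := by
    intro W hW
    refine (An_mono fun k _ => norm_Pk_le k _).trans ?_
    refine (An_add _ _ _).trans ?_
    have := hB W G hW hG
    have := hB G W hG hW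
    linarith
  have hE := (Real.exp_pos (-(x * t))).le
  rw [e1]
  refine (An_add _ _ _).trans ?_
  have c1 := An_add S (ex L t • ((((4 * Real.pi ^ 2 * ν * W785.DF.sq μ : ℝ) : ℂ) • G
          + fun k => Pk k (PW η h k))))
      (ex (l + L) t • (fun k => Pk k ((Bl S W1 G + Bl S G W1) k)))
  rw [An_smul, An_smul] at c1
  rw [An_smul S _ (ex (l' + L) t)]
  have d1 : ‖ex L t‖ * An S (((4 * Real.pi ^ 2 * ν * W785.DF.sq μ : ℝ) : ℂ) • G
        + fun k => Pk k (PW η h k))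
      ≤ Real.exp (-(x * t)) * (4 * Real.pi ^ 2 * ν * W785.DF.sq μ * An S G + 2 * ‖h‖) :=
    mul_le_mul (norm_ex_le h1 ht) b1 (An_nonneg _ _) hE
  have d2 : ‖ex (l + L) t‖ * An S (fun k => Pk k ((Bl S W1 G + Bl S G W1) k))
      ≤ Real.exp (-(x * t)) * (4 * Real.pi * A 0 S W1 * A 0 S G) :=
    mul_le_mul (norm_ex_le (by linarith) ht) (b2 W1 hW1) (An_nonneg _ _) hE
  have d3 : ‖ex (l' + L) t‖ * An S (fun k => Pk k ((Bl S W2 G + Bl S G W2) k))
      ≤ Real.exp (-(x * t)) * (4 * Real.pi * A 0 S W2 * A 0 S G) :=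
    mul_le_mul (norm_ex_le (by linarith) ht) (b2 W2 hW2) (An_nonneg _ _) hE
  linarith

theorem proof (hpw : S_pw) : S_wave := by
  intro ν hν μ p hμ hp hμp
  obtain ⟨q, hq, hqp, hqμ, hμq⟩ := exists_q μ p hμ hp hμp
  have hμp' := dk_kv_of μ p hμp
  obtain ⟨Q, hQ⟩ : ∃ Q, Q = W785.DF.sq q := ⟨_, rfl⟩
  obtain ⟨M, hM⟩ : ∃ M, M = W785.DF.sq μ := ⟨_, rfl⟩
  have hQ1 : 1 ≤ Q := hQ ▸ one_le_sq hq
  have hM1 : 1 ≤ M := hM ▸ one_le_sq hμ
  have hpi := Real.pi_pos
  have hkq1 : 1 ≤ ‖kv q‖ := by rw [← ab_eq_norm]; exact one_le_ab hq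
  have hdata := fun (z : ℂ) {N : ℕ} (hN : 1 ≤ N) =>
    wave_data hpw hν hμ hq hqp hqμ hμq hμp' z hN hQ hM
  obtain ⟨R, hR⟩ : ∃ R, R = Real.sqrt (Q + M) := ⟨_, rfl⟩
  obtain ⟨E0, hE0⟩ : ∃ E0 : ℝ, E0 = ‖kv p‖ + ‖kv μ‖ + M * ‖kv q‖ := ⟨_, rfl⟩
  obtain ⟨B1, hB1⟩ : ∃ B1 : ℝ, B1 = Real.sqrt (Real.pi * ν * (2 * Q + M)) := ⟨_, rfl⟩
  obtain ⟨D, hD⟩ : ∃ D : ℝ, D = 4 * Real.pi ^ 2 * ν * (2 * Q + M) := ⟨_, rfl⟩
  rw [← hR, ← hE0, ← hB1, ← hD] at hdata
  have hE01 : 1 ≤ E0 := by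
    have := norm_nonneg (kv p)
    have := norm_nonneg (kv μ)
    rw [hE0]; nlinarith
  have hB1pos : 0 < B1 := by rw [hB1]; apply Real.sqrt_pos.mpr; positivity
  have hD0 : 0 < D := by rw [hD]; positivity
  have hR1 : 1 ≤ R := by
    rw [hR, ← Real.sqrt_one]; exact Real.sqrt_le_sqrt (by linarith)
  have hE00 : 0 < E0 := by linarith
  have hR0 : 0 < R := by linarith
  have hM0 : 0 < M := by linarith
  refine ⟨2 * (B1 * E0), by positivity, fun z => ?_⟩
  obtain ⟨Z, hZ⟩ : ∃ Z, Z = ‖z‖ := ⟨_, rfl⟩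
  have hZ0 : 0 ≤ Z := hZ ▸ norm_nonneg z
  obtain ⟨bb, hbb⟩ : ∃ bb, bb = Real.sqrt Z * B1 * E0 := ⟨_, rfl⟩
  have hbb0 : 0 ≤ bb := by rw [hbb]; positivity
  refine ⟨1 + 4 * bb + 2 * Z * E0 + (4 * bb + 2 * Z * E0) * R
    + (8 * Real.pi ^ 2 * ν * M * Z * E0 + Z * D * E0 + 32 * Real.pi * bb * Z * E0),
    4 * Real.pi ^ 2 * ν, by positivity, by positivity, 1, one_pos, fun N hN => ?_⟩
  have hN1 : (1 : ℝ) ≤ N := by exact_mod_cast hN
  have hN0 : (0 : ℝ) < N := by linarith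
  obtain ⟨d⟩ := hdata z hN
  obtain ⟨η, η', a, b, g, v, h, L, l, l', η0, η0', ne, ne', hημ, da, db, dg, hl, hl', hL, Nle, Nle',
    leR, leR', na, nb, ng, ngp, nh, vP, int⟩ := d
  rw [← hZ] at na nb ng ngp nh
  rw [← hbb] at na nb
  have hab1 : 1 ≤ ab μ := one_le_ab hμ
  have sqab : ∀ k, ab k ^ 2 = W785.DF.sq k := fun k =>
    Real.sq_sqrt (Finset.sum_nonneg fun _ _ => sq_nonneg _)
  have hlN : 4 * Real.pi ^ 2 * ν * (N : ℝ) ^ 2 ≤ l := by
    rw [hl, ← sqab]
    have : (N : ℝ) ^ 2 ≤ ab η ^ 2 := by gcongr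
    gcongr
  have hlN' : 4 * Real.pi ^ 2 * ν * (N : ℝ) ^ 2 ≤ l' := by
    rw [hl', ← sqab]
    have : (N : ℝ) ^ 2 ≤ ab η' ^ 2 := by gcongr
    gcongr
  have hx0 : 0 ≤ 4 * Real.pi ^ 2 * ν * (N : ℝ) ^ 2 := by positivity
  have hLN : 4 * Real.pi ^ 2 * ν * (N : ℝ) ^ 2 ≤ L := by rw [hL]; linarith
  have hF : Fr ({η, -η, η', -η'} : Finset K3) := by
    constructor
    · simp only [Finset.mem_insert, Finset.mem_singleton, not_or]
      exact ⟨Ne.symm η0, fun h => η0 (by simpa using h.symm), Ne.symm η0',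
        fun h => η0' (by simpa using h.symm)⟩
    · intro k hk
      simp only [Finset.mem_insert, Finset.mem_singleton] at hk ⊢
      rcases hk with rfl | rfl | rfl | rfl <;> simp
  have mη : η ∈ ({η, -η, η', -η'} : Finset K3) := by simp
  have mη' : η' ∈ ({η, -η, η', -η'} : Finset K3) := by simp
  refine ⟨{η, -η, η', -η'}, PW η a + PW η' b, hF,
    Fld_add (hpw.2.1 _ hF η a mη da).1 (hpw.2.1 _ hF η' b mη' db).1, Finset.card_le_four, ?_, ?_, ?_⟩
  · intro k hk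
    simp only [Finset.mem_insert, Finset.mem_singleton] at hk
    rcases hk with rfl | rfl | rfl | rfl
    · exact Nle
    · rw [ab_neg]; exact Nle
    · exact Nle'
    · rw [ab_neg]; exact Nle'
  · intro k
    have e1 : ‖a‖ ≤ bb * ab η := na.trans (mul_le_mul_of_nonneg_left Nle hbb0)
    have e2 : ‖b‖ ≤ bb * ab η' := nb.trans (mul_le_mul_of_nonneg_left Nle' hbb0)
    have e3 := norm_PW_ab e1 hbb0 k
    have e4 := norm_PW_ab e2 hbb0 k
    rw [Pi.add_apply]
    refine (norm_add_le _ _).trans ((add_le_add e3 e4).trans (le_of_eq ?_))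
    rw [hbb, ← hZ]; ring
  · intro S hS hFS hμS
    have hηS : η ∈ S := hFS mη
    have hη'S : η' ∈ S := hFS mη'
    obtain ⟨fW1, aW1, nW1⟩ := hpw.2.1 S hS η a hηS da
    obtain ⟨fW2, aW2, nW2⟩ := hpw.2.1 S hS η' b hη'S db
    obtain ⟨fG, aG, nG⟩ := hpw.2.1 S hS μ g hμS dg
    have hAnG : An S (PW μ g) ≤ 2 * (Z * E0) := by
      rw [nG]
      exact (div_le_self (by positivity) hab1).trans (by linarith)
    have hA0G : A 0 S (PW μ g) ≤ 2 * (Z * E0) := by
      rw [aG 0, pow_zero]; linarith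
    have hA0W1 : A 0 S (PW η a) ≤ 2 * (bb * N) := by
      rw [aW1 0, pow_zero]; linarith
    have hA0W2 : A 0 S (PW η' b) ≤ 2 * (bb * N) := by
      rw [aW2 0, pow_zero]; linarith
    have hA0nn : ∀ (m : ℕ) (w : K3 → E3), 0 ≤ A m S w := fun m w =>
      Finset.sum_nonneg fun k _ => mul_nonneg (pow_nonneg (ab_nonneg k) m) (norm_nonneg _)
    refine ⟨fun t => ex l t • PW η a + ex l' t • PW η' b + ex L t • PW μ g,
      er S ν μ L l l' (PW η a) (PW η' b) (PW μ g) (PW (η + η') h), ?_, ?_, ?_, ?_, ?_, ?_⟩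
    · intro t
      exact Fld_add (Fld_add (Fld_ex fW1 l t) (Fld_ex fW2 l' t)) (Fld_ex fG L t)
    · intro k
      exact ((cd_ex l _).add (cd_ex l' _)).add (cd_ex L _)
    · intro k
      exact (((cd_ex L _).add (cd_ex (l + L) _)).add (cd_ex (l' + L) _)).continuous
    · intro t k _
      have hd := ((hd_ex l (PW η a k) t).add (hd_ex l' (PW η' b k) t)).add (hd_ex L (PW μ g k) t)
      refine HasDerivAt.congr_deriv hd ?_
      exact eq_core hpw hS ν μ η η' L l l' a b g v h hμS hηS hη'S da db dg hl hl' hL vP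
        (int S hS hηS hη'S) t k
    · have e1 : (ex l 0 • PW η a + ex l' 0 • PW η' b + ex L 0 • PW μ g)
          - (PW η a + PW η' b) - MF μ p z = PW μ (g - z • kv p) := by
        rw [ex_zero, ex_zero, ex_zero, one_smul, one_smul, one_smul, hpw.1]
        funext k
        rw [PW_sub]
        simp only [Pi.sub_apply, Pi.add_apply]
        abel
      show An S ((ex l 0 • PW η a + ex l' 0 • PW η' b + ex L 0 • PW μ g)
          - (PW η a + PW η' b) - MF μ p z) ≤ _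
      rw [e1]
      refine (An_PW_le hS μ _).trans ?_
      have e2 : 2 * ‖g - z • kv p‖ ≤ Z * E0 / N := by
        refine (mul_le_mul_of_nonneg_left ngp (by norm_num)).trans (le_of_eq ?_)
        field_simp
      refine e2.trans ?_
      have : Z * E0 ≤ 1 + 4 * bb + 2 * Z * E0 + (4 * bb + 2 * Z * E0) * R
          + (8 * Real.pi ^ 2 * ν * M * Z * E0 + Z * D * E0 + 32 * Real.pi * bb * Z * E0) := by
        have t1 : 0 ≤ (4 * bb + 2 * Z * E0) * R := by positivity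
        have t2 : 0 ≤ 8 * Real.pi ^ 2 * ν * M * Z * E0 + Z * D * E0 + 32 * Real.pi * bb * Z * E0 := by
          positivity
        have t3 : 0 ≤ Z * E0 := by positivity
        linarith
      gcongr
    · intro t ht
      have hEx := (Real.exp_pos (-(4 * Real.pi ^ 2 * ν * (N : ℝ) ^ 2 * t))).le
      have bnd : ∀ m : ℕ, A m S (ex l t • PW η a + ex l' t • PW η' b + ex L t • PW μ g)
          ≤ (A m S (PW η a) + A m S (PW η' b) + A m S (PW μ g))
            * Real.exp (-(4 * Real.pi ^ 2 * ν * (N : ℝ) ^ 2 * t)) := by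
        intro m
        refine (A_add _ _ _ _).trans ?_
        have c1 := A_add m S (ex l t • PW η a) (ex l' t • PW η' b)
        rw [A_smul, A_smul] at c1
        rw [A_smul m S (PW μ g)]
        have d1 := mul_le_mul_of_nonneg_right (norm_ex_le hlN ht) (hA0nn m (PW η a))
        have d2 := mul_le_mul_of_nonneg_right (norm_ex_le hlN' ht) (hA0nn m (PW η' b))
        have d3 := mul_le_mul_of_nonneg_right (norm_ex_le hLN ht) (hA0nn m (PW μ g))
        linarith
      have hZE : 0 ≤ Z * E0 := by positivity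
      have t2 : 0 ≤ 8 * Real.pi ^ 2 * ν * M * Z * E0 + Z * D * E0 + 32 * Real.pi * bb * Z * E0 := by
        positivity
      have t1 : 0 ≤ (4 * bb + 2 * Z * E0) * R := by positivity
      have hN2 : (1 : ℝ) ≤ (N : ℝ) ^ 2 := one_le_pow₀ hN1
      refine ⟨?_, ?_, ?_⟩
      · refine (bnd 0).trans (mul_le_mul_of_nonneg_right ?_ hEx)
        have e1 : A 0 S (PW η a) + A 0 S (PW η' b) + A 0 S (PW μ g)
            ≤ (4 * bb + 2 * Z * E0) * N := by nlinarith
        refine e1.trans (mul_le_mul_of_nonneg_right ?_ hN0.le)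
        linarith
      · refine (bnd 1).trans (mul_le_mul_of_nonneg_right ?_ hEx)
        rw [aW1 1, aW2 1, aG 1, pow_one, pow_one, pow_one]
        have hηη : ab μ ≤ R := by
          rw [hR, ab, ← hM]; exact Real.sqrt_le_sqrt (by linarith)
        have f1 : 2 * ab η * ‖a‖ ≤ 2 * (N * R) * (bb * N) := by
          have := ab_nonneg η
          gcongr
        have f2 : 2 * ab η' * ‖b‖ ≤ 2 * (N * R) * (bb * N) := by
          have := ab_nonneg η'
          gcongr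
        have f3 : 2 * ab μ * ‖g‖ ≤ 2 * R * (Z * E0) := by
          have := ab_nonneg μ
          gcongr
        have f4 : 2 * R * (Z * E0) ≤ 2 * R * (Z * E0) * (N : ℝ) ^ 2 :=
          le_mul_of_one_le_right (by positivity) hN2
        have e1 : 2 * ab η * ‖a‖ + 2 * ab η' * ‖b‖ + 2 * ab μ * ‖g‖
            ≤ ((4 * bb + 2 * Z * E0) * R) * (N : ℝ) ^ 2 := by nlinarith
        refine e1.trans (mul_le_mul_of_nonneg_right ?_ (by positivity))
        linarith
      · refine (An_er hpw hS hν μ (η + η') L l l' _ _ _ h fW1 fW2 fG hLN hlN hlN'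
          (by linarith) ht).trans (mul_le_mul_of_nonneg_right ?_ hEx)
        rw [← hM]
        have g1 : 4 * Real.pi ^ 2 * ν * M * An S (PW μ g)
            ≤ 4 * Real.pi ^ 2 * ν * M * (2 * (Z * E0)) * N := by
          refine (mul_le_mul_of_nonneg_left hAnG (by positivity)).trans ?_
          exact le_mul_of_one_le_right (by positivity) hN1
        have g2 : 2 * ‖h‖ ≤ Z * D * E0 * N := by linarith
        have g3 : 4 * Real.pi * A 0 S (PW η a) * A 0 S (PW μ g)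
            ≤ 4 * Real.pi * (2 * (bb * N)) * (2 * (Z * E0)) := by
          have := hA0nn 0 (PW η a)
          have := hA0nn 0 (PW μ g)
          gcongr
        have g4 : 4 * Real.pi * A 0 S (PW η' b) * A 0 S (PW μ g)
            ≤ 4 * Real.pi * (2 * (bb * N)) * (2 * (Z * E0)) := by
          have := hA0nn 0 (PW η' b)
          have := hA0nn 0 (PW μ g)
          gcongr
        have e1 : 4 * Real.pi ^ 2 * ν * M * An S (PW μ g) + 2 * ‖h‖
            + 4 * Real.pi * A 0 S (PW η a) * A 0 S (PW μ g)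
            + 4 * Real.pi * A 0 S (PW η' b) * A 0 S (PW μ g)
            ≤ (8 * Real.pi ^ 2 * ν * M * Z * E0 + Z * D * E0 + 32 * Real.pi * bb * Z * E0) * N := by
          nlinarith
        refine e1.trans (mul_le_mul_of_nonneg_right ?_ hN0.le)
        linarith

end Pool.Agent.W85.DD
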